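import Pool.Agent.H59.HR.Stm

/-! Parts A2, A3, A5: glueing, fibres at `t ≠ 0`, tangent vectors at `t ≠ 0`. -/

set_option linter.all false

open Polynomial

namespace HR

namespace H50

/-- the inclusion `A[x] → A[x,y]` -/
noncomputable def io {A : Type*} [CommRing A] : A[X] →+* P2 A :=
  Polynomial.eval₂RingHom MvPolynomial.C (MvPolynomial.X 0)

theorem io_C {A : Type*} [CommRing A] (c : A) : io (Polynomial.C c) = MvPolynomial.C c := by
  simp [io]

theorem io_X {A : Type*} [CommRing A] : io (Polynomial.X : A[X]) = MvPolynomial.X 0 := by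
  simp [io]

theorem ev_io {A : Type*} [CommRing A] (a p : A[X]) : ev a (io p) = p := by
  induction p using Polynomial.induction_on' with
  | add p q hp hq => rw [map_add, map_add, hp, hq]
  | monomial n c =>
    rw [← Polynomial.C_mul_X_pow_eq_monomial, map_mul, map_pow, io_C, io_X, map_mul, map_pow, ev_C,
      ev_X0]

theorem map_io {A B : Type*} [CommRing A] [CommRing B] (ψ : A →+* B) (p : A[X]) :
    MvPolynomial.map ψ (io p) = io (p.map ψ) := by
  induction p using Polynomial.induction_on' with
  | add p q hp hq => rw [map_add, map_add, hp, hq, Polynomial.map_add, map_add]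
  | monomial n c =>
    rw [← Polynomial.C_mul_X_pow_eq_monomial, map_mul, map_pow, io_C, io_X, map_mul, map_pow,
      MvPolynomial.map_C, MvPolynomial.map_X, Polynomial.map_mul, Polynomial.map_pow,
      Polynomial.map_C, Polynomial.map_X, map_mul, map_pow, io_C, io_X]

/-- surjective base change of `curv` -/
theorem curv_map {A B : Type*} [CommRing A] [CommRing B] (ψ : A →+* B)
    (hψ : Function.Surjective ψ) (n : ℕ) (a : A[X]) :
    (curv n a).map (MvPolynomial.map ψ) = curv n (a.map ψ) := by
  apply le_antisymm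
  · rw [Ideal.map_le_iff_le_comap]
    intro F hF
    rw [Ideal.mem_comap, mem_curv, ev_map]
    rw [mem_curv] at hF
    obtain ⟨q, hq⟩ := hF
    exact ⟨q.map ψ, by rw [hq, Polynomial.map_mul, Polynomial.map_pow, Polynomial.map_X]⟩
  · intro G hG
    obtain ⟨G', rfl⟩ := MvPolynomial.map_surjective ψ hψ G
    rw [mem_curv, ev_map] at hG
    obtain ⟨r, hr⟩ := hG
    have h1 : G' - io (ev a G') ∈ curv n a := by
      rw [mem_curv, map_sub, ev_io, sub_self]
      exact dvd_zero _
    have h2 : (MvPolynomial.X 0 : P2 A) ^ n ∈ curv n a := by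
      rw [mem_curv, map_pow, ev_X0]
    have h3 : MvPolynomial.map ψ G' = MvPolynomial.map ψ (G' - io (ev a G')) +
        MvPolynomial.map ψ ((MvPolynomial.X 0 : P2 A) ^ n) * io r := by
      rw [map_sub, map_io, hr, map_mul, map_pow, map_pow, io_X, MvPolynomial.map_X]
      ring
    rw [h3]
    exact Ideal.add_mem _ (Ideal.mem_map_of_mem _ h1)
      (Ideal.mul_mem_right _ _ (Ideal.mem_map_of_mem _ h2))

theorem denMv (F : P2 LP) : ∃ (N : ℕ) (F' : P2 ℂ[X]),
    MvPolynomial.map (Polynomial.toLaurent : ℂ[X] →+* LP) F' =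
      MvPolynomial.C (LaurentPolynomial.T (N : ℤ)) * F := by
  induction F using MvPolynomial.induction_on with
  | C c =>
    obtain ⟨N, f', h⟩ := LaurentPolynomial.exists_T_pow c
    refine ⟨N, MvPolynomial.C f', ?_⟩
    rw [MvPolynomial.map_C, ← map_mul]
    rw [mul_comm] at h
    exact congrArg _ h
  | add p q hp hq =>
    obtain ⟨N, p', h⟩ := hp
    obtain ⟨M, q', k⟩ := hq
    refine ⟨N + M, MvPolynomial.C (Polynomial.X ^ M) * p' + MvPolynomial.C (Polynomial.X ^ N) * q',
      ?_⟩
    rw [map_add, map_mul, map_mul, h, k, MvPolynomial.map_C, MvPolynomial.map_C]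
    have e : ∀ M : ℕ, (Polynomial.toLaurent : ℂ[X] →+* LP) (Polynomial.X ^ M) =
        LaurentPolynomial.T (M : ℤ) := by
      intro M; exact Polynomial.toLaurent_X_pow M
    rw [e, e]
    push_cast
    rw [LaurentPolynomial.T_add, map_mul]
    ring
  | mul_X p i hp =>
    obtain ⟨N, p', h⟩ := hp
    refine ⟨N, p' * MvPolynomial.X i, ?_⟩
    rw [map_mul, h, MvPolynomial.map_X]
    ring

theorem denP (F : LP[X]) : ∃ (N : ℕ) (F' : ℂ[X][X]),
    F'.map (Polynomial.toLaurent : ℂ[X] →+* LP) =
      Polynomial.C (LaurentPolynomial.T (N : ℤ)) * F := by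
  induction F using Polynomial.induction_on' with
  | add p q hp hq =>
    obtain ⟨N, p', h⟩ := hp
    obtain ⟨M, q', k⟩ := hq
    refine ⟨N + M, Polynomial.C (Polynomial.X ^ M) * p' + Polynomial.C (Polynomial.X ^ N) * q',
      ?_⟩
    rw [Polynomial.map_add, Polynomial.map_mul, Polynomial.map_mul, h, k, Polynomial.map_C,
      Polynomial.map_C]
    have e : ∀ M : ℕ, (Polynomial.toLaurent : ℂ[X] →+* LP) (Polynomial.X ^ M) =
        LaurentPolynomial.T (M : ℤ) := by
      intro M; exact Polynomial.toLaurent_X_pow M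
    rw [e, e]
    push_cast
    rw [LaurentPolynomial.T_add, map_mul]
    ring
  | monomial n c =>
    obtain ⟨N, f', h⟩ := LaurentPolynomial.exists_T_pow c
    refine ⟨N, Polynomial.monomial n f', ?_⟩
    rw [Polynomial.map_monomial, Polynomial.C_mul_monomial]
    rw [mul_comm] at h
    exact congrArg _ h

theorem fam_map (n : ℕ) (a : LP[X]) :
    (fam n a).map (MvPolynomial.map (Polynomial.toLaurent : ℂ[X] →+* LP)) = curv n a := by
  apply le_antisymm
  · rw [Ideal.map_le_iff_le_comap]
    exact le_refl _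
  · intro F hF
    obtain ⟨N, F', h⟩ := denMv F
    have h1 : F' ∈ fam n a := by
      rw [fam, Ideal.mem_comap, h]
      exact Ideal.mul_mem_left _ _ hF
    have h2 : F = MvPolynomial.C (LaurentPolynomial.T (-(N : ℤ))) *
        MvPolynomial.map (Polynomial.toLaurent : ℂ[X] →+* LP) F' := by
      rw [h, ← mul_assoc, ← map_mul, ← LaurentPolynomial.T_add]
      simp
    rw [h2]
    exact Ideal.mul_mem_left _ _ (Ideal.mem_map_of_mem _ h1)

theorem inv_inv (p : LP) : ((LaurentPolynomial.invert : LP ≃ₐ[ℂ] LP) : LP →+* LP)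
    (((LaurentPolynomial.invert : LP ≃ₐ[ℂ] LP) : LP →+* LP) p) = p := by
  show LaurentPolynomial.invert (LaurentPolynomial.invert p) = p
  exact LaurentPolynomial.involutive_invert p

end H50

open H50

theorem A2 : S_A2 := by
  intro n a
  rw [fam_map]
  have e : (MvPolynomial.map toLaurentInv : P2 ℂ[X] →+* P2 LP) =
      (MvPolynomial.map ((LaurentPolynomial.invert : LP ≃ₐ[ℂ] LP) : LP →+* LP)).comp
        (MvPolynomial.map (Polynomial.toLaurent : ℂ[X] →+* LP)) := by
    ext1
    · ext1
      · ext c; simp [toLaurentInv]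
      · simp [toLaurentInv]
    · simp [toLaurentInv]
  rw [e, ← Ideal.map_map, fam_map, curv_map]
  · congr 1
    rw [Polynomial.map_map]
    have : (((LaurentPolynomial.invert : LP ≃ₐ[ℂ] LP) : LP →+* LP).comp
        ((LaurentPolynomial.invert : LP ≃ₐ[ℂ] LP) : LP →+* LP)) = RingHom.id LP :=
      RingHom.ext H50.inv_inv
    rw [this, Polynomial.map_id]
  · intro p
    exact ⟨_, H50.inv_inv p⟩

theorem A3 : S_A3 := by
  intro n a t
  have e : (MvPolynomial.map (Polynomial.evalRingHom (t : ℂ)) : P2 ℂ[X] →+* P2 ℂ) =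
      (MvPolynomial.map (lev t)).comp
        (MvPolynomial.map (Polynomial.toLaurent : ℂ[X] →+* LP)) := by
    have e2 : Polynomial.evalRingHom (t : ℂ) = (lev t).comp
        (Polynomial.toLaurent : ℂ[X] →+* LP) := by
      ext1
      · ext c; simp [lev]
      · simp [lev]
    rw [e2]
    ext1
    · ext1
      · ext c; simp
      · simp
    · simp
  rw [fibre, e, ← Ideal.map_map, fam_map, curv_map]
  intro c
  exact ⟨LaurentPolynomial.C c, by simp [lev]⟩

namespace H50

theorem lD_mul (p q : LP) : lD (p * q) = lD p * q + p * lD q := by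
  induction p using LaurentPolynomial.induction_on' with
  | add p p' hp hp' => rw [add_mul, lD_add, lD_add, hp, hp']; ring
  | C_mul_T n c =>
    induction q using LaurentPolynomial.induction_on' with
    | add p p' hp hp' => rw [mul_add, lD_add, lD_add, hp, hp']; ring
    | C_mul_T m d =>
      have e : (LaurentPolynomial.C c * LaurentPolynomial.T n : LP) *
          (LaurentPolynomial.C d * LaurentPolynomial.T m) =
          LaurentPolynomial.C (c * d) * LaurentPolynomial.T (n + m) := by
        rw [LaurentPolynomial.T_add, map_mul]; ring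
      rw [e, lD_C_mul_T, lD_C_mul_T, lD_C_mul_T]
      have e1 : (LaurentPolynomial.T (n + m - 1) : LP) =
          LaurentPolynomial.T (n - 1) * LaurentPolynomial.T m := by
        rw [← LaurentPolynomial.T_add]; congr 1; ring
      have e2 : (LaurentPolynomial.T n * LaurentPolynomial.T (m - 1) : LP) =
          LaurentPolynomial.T (n - 1) * LaurentPolynomial.T m := by
        rw [← LaurentPolynomial.T_add, ← LaurentPolynomial.T_add]; congr 1; ring
      have e3 : (LaurentPolynomial.C c * LaurentPolynomial.T n : LP) *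
          (LaurentPolynomial.C (d * (m : ℂ)) * LaurentPolynomial.T (m - 1)) =
          LaurentPolynomial.C (c * (d * m)) * (LaurentPolynomial.T n * LaurentPolynomial.T (m - 1)) := by
        rw [map_mul (LaurentPolynomial.C : ℂ →+* LP) c]; ring
      rw [e3, e2, e1]
      have e4 : (c * d * ((n + m : ℤ) : ℂ)) = c * n * d + c * (d * m) := by push_cast; ring
      rw [e4, map_add, map_mul (LaurentPolynomial.C : ℂ →+* LP) (c * n) d]
      ring

theorem lD_poly (p : ℂ[X]) : lD ((Polynomial.toLaurent : ℂ[X] →+* LP) p) =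
    (Polynomial.toLaurent : ℂ[X] →+* LP) (Polynomial.derivative p) := by
  induction p using Polynomial.induction_on' with
  | add p q hp hq => rw [map_add, lD_add, hp, hq, map_add, map_add]
  | monomial n c =>
    rw [← Polynomial.C_mul_X_pow_eq_monomial, Polynomial.derivative_C_mul_X_pow, map_mul, map_mul]
    have e : ∀ M : ℕ, (Polynomial.toLaurent : ℂ[X] →+* LP) (Polynomial.X ^ M) =
        LaurentPolynomial.T (M : ℤ) := by
      intro M; exact Polynomial.toLaurent_X_pow M
    have e' : ∀ c : ℂ, (Polynomial.toLaurent : ℂ[X] →+* LP) (Polynomial.C c) =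
        LaurentPolynomial.C c := by
      intro M; exact Polynomial.toLaurent_C M
    rw [e, e', e, e', lD_C_mul_T]
    rcases Nat.eq_zero_or_pos n with rfl | hn
    · simp
    · congr 2
      push_cast [Nat.cast_sub hn]
      rfl

theorem lev_poly (t : ℂˣ) (p : ℂ[X]) : lev t ((Polynomial.toLaurent : ℂ[X] →+* LP) p) =
    p.eval (t : ℂ) := by
  have e2 : Polynomial.evalRingHom (t : ℂ) = (lev t).comp
      (Polynomial.toLaurent : ℂ[X] →+* LP) := by
    ext1
    · ext c; simp [lev]
    · simp [lev]
  exact (RingHom.congr_fun e2 p).symm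

theorem taylor1 (t : ℂ) (p : ℂ[X]) : ∃ h : ℂ[X], p = Polynomial.C (p.eval t) +
    (Polynomial.X - Polynomial.C t) * Polynomial.C ((Polynomial.derivative p).eval t) +
    (Polynomial.X - Polynomial.C t) ^ 2 * h := by
  obtain ⟨q, hq⟩ : Polynomial.X - Polynomial.C t ∣ p - Polynomial.C (p.eval t) := by
    rw [Polynomial.dvd_iff_isRoot]; simp
  obtain ⟨h, hh⟩ : Polynomial.X - Polynomial.C t ∣ q - Polynomial.C (q.eval t) := by
    rw [Polynomial.dvd_iff_isRoot]; simp
  have hp : p = Polynomial.C (p.eval t) + (Polynomial.X - Polynomial.C t) * q := by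
    rw [← hq]; ring
  have hd : (Polynomial.derivative p).eval t = q.eval t := by
    conv_lhs => rw [hp]
    simp
  refine ⟨h, ?_⟩
  rw [hd]
  conv_lhs => rw [hp]
  linear_combination (Polynomial.X - Polynomial.C t) * hh

theorem dec_io (t : ℂ) (b : ℂ[X][X]) : ∃ b' : ℂ[X],
    (∀ k, b'.coeff k = (Polynomial.derivative (b.coeff k)).eval t) ∧
    ∃ H : P2 ℂ[X], io b = emb (io (b.map (Polynomial.evalRingHom t))) +
      MvPolynomial.C (X - C t) * emb (io b') + MvPolynomial.C ((X - C t) ^ 2) * H := by
  induction b using Polynomial.induction_on' with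
  | add p q hp hq =>
    obtain ⟨b₁, h₁, H₁, e₁⟩ := hp
    obtain ⟨b₂, h₂, H₂, e₂⟩ := hq
    refine ⟨b₁ + b₂, fun k => ?_, H₁ + H₂, ?_⟩
    · rw [Polynomial.coeff_add, h₁, h₂, Polynomial.coeff_add, map_add, Polynomial.eval_add]
    · rw [map_add, e₁, e₂, Polynomial.map_add, map_add, map_add, map_add, map_add]
      ring
  | monomial n c =>
    obtain ⟨h, hh⟩ := taylor1 t c
    refine ⟨Polynomial.monomial n ((Polynomial.derivative c).eval t), fun k => ?_,
      MvPolynomial.C h * MvPolynomial.X 0 ^ n, ?_⟩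
    · rw [Polynomial.coeff_monomial, Polynomial.coeff_monomial]
      split_ifs with h1
      · rfl
      · simp
    · rw [← Polynomial.C_mul_X_pow_eq_monomial, ← Polynomial.C_mul_X_pow_eq_monomial,
        Polynomial.map_mul, Polynomial.map_pow, Polynomial.map_C, Polynomial.map_X]
      simp only [map_mul, map_pow, io_C, io_X]
      rw [emb, MvPolynomial.map_C, MvPolynomial.map_C, MvPolynomial.map_X]
      conv_lhs => rw [hh]
      simp only [map_add, map_mul, map_pow, Polynomial.coe_evalRingHom]
      ring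

end H50

theorem A5 : S_A5 := by
  intro n a t ⟨k, hk, hne⟩
  obtain ⟨N, b, hb⟩ := denP a
  obtain ⟨b', hb', H, hH⟩ := dec_io (t : ℂ) b
  obtain ⟨h, hh⟩ := taylor1 (t : ℂ) (Polynomial.X ^ N)
  set c0 : ℂ := (Polynomial.derivative (Polynomial.X ^ N : ℂ[X])).eval (t : ℂ) with hc0
  have hcoef : ∀ j, b'.coeff j = c0 * lev t (a.coeff j) + (t : ℂ) ^ N * lev t (lD (a.coeff j)) := by
    intro j
    rw [hb', ← lev_poly, ← lD_poly]
    have e1 : (Polynomial.toLaurent : ℂ[X] →+* LP) (b.coeff j) =
        (Polynomial.toLaurent : ℂ[X] →+* LP) (Polynomial.X ^ N) * a.coeff j := by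
      have := congrArg (fun q => Polynomial.coeff q j) hb
      simp only [Polynomial.coeff_map, Polynomial.coeff_C_mul] at this
      rw [this]
      congr 1
      exact (Polynomial.toLaurent_X_pow N).symm
    rw [e1, lD_mul, map_add, map_mul, map_mul, lD_poly, lev_poly, lev_poly, ← hc0]
    simp
  refine ⟨MvPolynomial.C ((t : ℂ) ^ N) * MvPolynomial.X 1 -
      io (b.map (Polynomial.evalRingHom (t : ℂ))),
    MvPolynomial.C c0 * MvPolynomial.X 1 - io b', ?_, ?_⟩
  · refine ⟨MvPolynomial.C (Polynomial.X ^ N) * MvPolynomial.X 1 - io b, ?_,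
      MvPolynomial.C h * MvPolynomial.X 1 - H, ?_⟩
    · rw [fam, Ideal.mem_comap, mem_curv, map_sub, map_mul, MvPolynomial.map_C, MvPolynomial.map_X,
        map_io, map_sub, map_mul, ev_C, ev_X1, ev_io, hb]
      have e : (Polynomial.toLaurent : ℂ[X] →+* LP) (Polynomial.X ^ N) =
          LaurentPolynomial.T (N : ℤ) := Polynomial.toLaurent_X_pow N
      rw [e, sub_self]
      exact dvd_zero _
    · rw [hH]
      conv_lhs => rw [hh]
      simp only [emb, map_sub, map_mul, MvPolynomial.map_C, MvPolynomial.map_X, map_add, map_pow,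
        Polynomial.eval_pow, Polynomial.eval_X]
      ring
  · rw [A3 n a t, mem_curv, map_sub, map_mul, ev_C, ev_X1, ev_io]
    intro hdvd
    rw [Polynomial.X_pow_dvd_iff] at hdvd
    have h1 := hdvd k hk
    rw [Polynomial.coeff_sub, Polynomial.coeff_C_mul, Polynomial.coeff_map, hcoef] at h1
    have h2 : (t : ℂ) ^ N * lev t (lD (a.coeff k)) = 0 := by linear_combination -h1
    rcases mul_eq_zero.mp h2 with h3 | h3
    · exact pow_ne_zero N t.ne_zero h3
    · exact hne h3

end HR
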